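import Pool.Agent.W425.BF.Stm

set_option autoImplicit false

/-! Project BF, part FCT: counting over `F_p`. -/

namespace Pool.Agent.W318.BF

open Pool.Agent.W425.BF

/-- points with nonzero coordinates are tuples of units -/
lemma conv {p n : ℕ} [Fact p.Prime] (P : (Fin n → ZMod p) → Prop) [DecidablePred P] :
    {y : Fin n → ZMod p | (∀ x, y x ≠ 0) ∧ P y}.ncard =
      ∑ v : Fin n → (ZMod p)ˣ, if P (fun x => (v x : ZMod p)) then 1 else 0 := by
  classical
  have h1 : {y : Fin n → ZMod p | (∀ x, y x ≠ 0) ∧ P y} =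
      (fun (v : Fin n → (ZMod p)ˣ) (x : Fin n) => (v x : ZMod p)) ''
        {v | P (fun x => (v x : ZMod p))} := by
    ext y
    simp only [Set.mem_setOf_eq, Set.mem_image]
    constructor
    · rintro ⟨h1, h2⟩
      refine ⟨fun x => Units.mk0 (y x) (h1 x), ?_, ?_⟩
      · simpa using h2
      · funext x; simp
    · rintro ⟨v, h, rfl⟩
      exact ⟨fun x => (v x).ne_zero, h⟩
  have hinj : Function.Injective
      (fun (v : Fin n → (ZMod p)ˣ) (x : Fin n) => (v x : ZMod p)) := by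
    intro v w h
    funext x
    exact Units.ext (congrFun h x)
  rw [h1, Set.ncard_image_of_injective _ hinj, Set.ncard_eq_toFinset_card',
    Finset.sum_boole, Nat.cast_id]
  congr 1
  ext v
  simp

lemma scale {p n k : ℕ} [Fact p.Prime] (m : Fin k → Fin n → ℕ) (i : Fin n) (j : Fin k)
    (c : (ZMod p)ˣ) (v : Fin n → (ZMod p)ˣ) :
    ∏ x, (((Pi.mulSingle i c * v : Fin n → (ZMod p)ˣ) x : (ZMod p)ˣ) : ZMod p) ^ m j x =
      (c : ZMod p) ^ m j i * ∏ x, ((v x : (ZMod p)ˣ) : ZMod p) ^ m j x := by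
  classical
  simp only [Pi.mul_apply, Units.val_mul, mul_pow, Finset.prod_mul_distrib]
  congr 1
  rw [Finset.prod_eq_single i]
  · simp
  · intro x _ hx
    rw [Pi.mulSingle_eq_of_ne hx]
    simp
  · intro h
    exact absurd (Finset.mem_univ i) h

theorem main : TaskFCT := by
  intro p hp n k m i j0 τ0 b hm hτ hb
  classical
  have hj0 : j0 ∉ τ0 := fun h => by
    have := hτ j0 h
    omega
  let f : (Fin n → (ZMod p)ˣ) → ZMod p := fun v =>
    b j0 * ∏ x, ((v x : (ZMod p)ˣ) : ZMod p) ^ m j0 x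
  let G : (Fin n → (ZMod p)ˣ) → ZMod p := fun v =>
    ∑ j ∈ τ0, b j * ∏ x, ((v x : (ZMod p)ˣ) : ZMod p) ^ m j x
  have hf0 : ∀ v, f v ≠ 0 := by
    intro v
    refine mul_ne_zero hb (Finset.prod_ne_zero_iff.2 (fun x _ => pow_ne_zero _ (v x).ne_zero))
  have hfs : ∀ (c : (ZMod p)ˣ) v, f (Pi.mulSingle i c * v) = c * f v := by
    intro c v
    simp only [f]
    rw [scale, hm, pow_one]
    ring
  have hGs : ∀ (c : (ZMod p)ˣ) v, G (Pi.mulSingle i c * v) = G v := by
    intro c v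
    simp only [G]
    refine Finset.sum_congr rfl (fun j hj => ?_)
    rw [scale, hτ j hj, pow_zero, one_mul]
  have hN1 : {y : Fin n → ZMod p | (∀ x, y x ≠ 0) ∧
        ∑ j ∈ insert j0 τ0, b j * ∏ x, y x ^ m j x = 0}.ncard =
      ∑ v : Fin n → (ZMod p)ˣ, if f v + G v = 0 then 1 else 0 := by
    rw [conv (fun y => ∑ j ∈ insert j0 τ0, b j * ∏ x, y x ^ m j x = 0)]
    refine Finset.sum_congr rfl (fun v _ => ?_)
    rw [Finset.sum_insert hj0]
  have hN2 : {y : Fin n → ZMod p | (∀ x, y x ≠ 0) ∧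
        ∑ j ∈ τ0, b j * ∏ x, y x ^ m j x = 0}.ncard =
      ∑ v : Fin n → (ZMod p)ˣ, if G v = 0 then 1 else 0 := by
    rw [conv (fun y => ∑ j ∈ τ0, b j * ∏ x, y x ^ m j x = 0)]
  rw [hN1, hN2]
  have hc : ∀ c : (ZMod p)ˣ, (∑ v : Fin n → (ZMod p)ˣ, if f v + G v = 0 then 1 else 0) =
      ∑ v : Fin n → (ZMod p)ˣ, if (c : ZMod p) * f v + G v = 0 then 1 else 0 := by
    intro c
    rw [← Equiv.sum_comp (Equiv.mulLeft (Pi.mulSingle i c : Fin n → (ZMod p)ˣ))
      (fun v => if f v + G v = 0 then 1 else 0)]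
    refine Finset.sum_congr rfl (fun v _ => ?_)
    simp only [Equiv.coe_mulLeft, hfs, hGs]
  have hv : ∀ v : Fin n → (ZMod p)ˣ,
      (∑ c : (ZMod p)ˣ, if (c : ZMod p) * f v + G v = 0 then 1 else 0) =
        if G v = 0 then 0 else 1 := by
    intro v
    by_cases hG : G v = 0
    · rw [if_pos hG]
      refine Finset.sum_eq_zero (fun c _ => ?_)
      rw [hG, add_zero, if_neg]
      exact mul_ne_zero c.ne_zero (hf0 v)
    · rw [if_neg hG]
      have hne : -G v / f v ≠ 0 := div_ne_zero (neg_ne_zero.2 hG) (hf0 v)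
      have hiff : ∀ c : (ZMod p)ˣ, ((c : ZMod p) * f v + G v = 0) ↔ c = Units.mk0 _ hne := by
        intro c
        rw [Units.ext_iff, Units.val_mk0, eq_div_iff (hf0 v), add_eq_zero_iff_eq_neg]
      simp only [hiff]
      simp
  have hcard : Fintype.card (ZMod p)ˣ = p - 1 := ZMod.card_units p
  have key : (p - 1) * (∑ v : Fin n → (ZMod p)ˣ, if f v + G v = 0 then 1 else 0) =
      ∑ v : Fin n → (ZMod p)ˣ, if G v = 0 then 0 else 1 := by
    rw [← hcard, ← smul_eq_mul, ← Finset.card_univ, ← Finset.sum_const]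
    rw [Finset.sum_congr rfl (fun c _ => hc c), Finset.sum_comm]
    exact Finset.sum_congr rfl (fun v _ => hv v)
  rw [key, ← Finset.sum_add_distrib]
  have h1 : ∀ v : Fin n → (ZMod p)ˣ,
      ((if G v = 0 then 0 else 1) + (if G v = 0 then 1 else 0)) = 1 := by
    intro v
    by_cases hG : G v = 0 <;> simp [hG]
  rw [Finset.sum_congr rfl (fun v _ => h1 v)]
  simp [hcard]

end Pool.Agent.W318.BF
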